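import Mathlib

namespace Pool.Agent.Results.MP_b5aa09_co.Pappus

/-- Points `(x i, y i)` and non-vertical lines `A j * x + y + C j = 0`. -/
structure Scene (n m : ℕ) where
  x : Fin n → ℝ
  y : Fin n → ℝ
  A : Fin m → ℝ
  C : Fin m → ℝ

/-- Point `i` lies on line `j`. -/
def Scene.On {n m : ℕ} (s : Scene n m) (i : Fin n) (j : Fin m) : Prop :=
  s.A j * s.x i + s.y i + s.C j = 0

/-- The linear form of a constraint, as a function of the variables `u, w, U, W`. -/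
def Scene.form {n m : ℕ} (s : Scene n m) : (Fin n × Fin n) ⊕ (Fin n × Fin m) →
    (Fin n → ℝ) → (Fin n → ℝ) → (Fin m → ℝ) → (Fin m → ℝ) → ℝ
  | .inl (i, k) => fun u w _ _ => (s.x i - s.x k) * (u i - u k) + (s.y i - s.y k) * (w i - w k)
  | .inr (i, j) => fun u w U W => s.A j * u i + s.x i * U j + w i + W j

/-- `E ∪ I` is independent at the scene `s`. -/
def Scene.Indep {n m : ℕ} (s : Scene n m) (E : Finset (Fin n × Fin n))
    (I : Finset (Fin n × Fin m)) : Prop :=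
  LinearIndepOn ℝ s.form (E.disjSum I : Finset _)

/-- The counting condition. -/
def Count {n m : ℕ} (E : Finset (Fin n × Fin n)) (I : Finset (Fin n × Fin m)) : Prop :=
  ∀ E' ⊆ E, ∀ I' ⊆ I, E'.Nonempty ∨ I'.Nonempty →
    (E'.card + I'.card : ℤ) ≤
      2 * (E'.image Prod.fst ∪ E'.image Prod.snd ∪ I'.image Prod.fst).card +
        2 * (I'.image Prod.snd).card - 3

def EL : List (Fin 9 × Fin 9) := [(6, 7), (7, 8), (6, 8), (0, 4), (1, 5), (2, 3)]

def IL : List (Fin 9 × Fin 8) :=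
  [(0, 0), (1, 0), (2, 0), (3, 1), (4, 1), (5, 1), (0, 2), (4, 2), (8, 2), (1, 3), (5, 3), (6, 3),
   (2, 4), (3, 4), (7, 4), (1, 5), (3, 5), (8, 5), (2, 6), (4, 6), (6, 6), (0, 7), (5, 7), (7, 7)]

def g (p0 p1 p2 p3 p4 p5 p6 p7 p8 q0 q1 q2 q3 q4 q5 q6 q7 : ℕ) : Bool :=
  Nat.ble ((p6*p7+p7*p8+p6*p8+p0*p4+p1*p5+p2*p3 + ((p0+p1+p2)*q0+(p3+p4+p5)*q1+(p0+p4+p8)*q2+
    (p1+p5+p6)*q3+(p2+p3+p7)*q4+(p1+p3+p8)*q5+(p2+p4+p6)*q6+(p0+p5+p7)*q7)) + 3)
    (2*(p0+p1+p2+p3+p4+p5+p6+p7+p8)+2*(q0+q1+q2+q3+q4+q5+q6+q7)) ||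
  Nat.beq (p6*p7+p7*p8+p6*p8+p0*p4+p1*p5+p2*p3 + ((p0+p1+p2)*q0+(p3+p4+p5)*q1+(p0+p4+p8)*q2+
    (p1+p5+p6)*q3+(p2+p3+p7)*q4+(p1+p3+p8)*q5+(p2+p4+p6)*q6+(p0+p5+p7)*q7)) 0

def al (f : ℕ → Bool) : Bool := f 0 && f 1

theorem key : (al fun p0 => al fun p1 => al fun p2 => al fun p3 => al fun p4 => al fun p5 =>
    al fun p6 => al fun p7 => al fun p8 => al fun q0 => al fun q1 => al fun q2 => al fun q3 =>
    al fun q4 => al fun q5 => al fun q6 => al fun q7 =>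
    g p0 p1 p2 p3 p4 p5 p6 p7 p8 q0 q1 q2 q3 q4 q5 q6 q7) = true := by decide +kernel

theorem al_spec {f : ℕ → Bool} (h : al f = true) {t : ℕ} (ht : t ≤ 1) : f t = true := by
  rw [al, Bool.and_eq_true] at h
  interval_cases t
  exacts [h.1, h.2]

theorem count : Count EL.toFinset IL.toFinset := by
  intro E' hE I' hI hne
  set V := E'.image Prod.fst ∪ E'.image Prod.snd ∪ I'.image Prod.fst with hV
  set F := I'.image Prod.snd with hF
  let p : Fin 9 → ℕ := fun i => if i ∈ V then 1 else 0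
  let q : Fin 8 → ℕ := fun i => if i ∈ F then 1 else 0
  have hp : ∀ i, p i ≤ 1 := fun i => by simp only [p]; split_ifs <;> simp
  have hq : ∀ i, q i ≤ 1 := fun i => by simp only [q]; split_ifs <;> simp
  have h1 : V.card = ∑ i, p i := by simp [p]
  have h2 : F.card = ∑ i, q i := by simp [q]
  have h3 : E'.card ≤ ∑ e ∈ EL.toFinset, p e.1 * p e.2 := by
    refine le_trans ?_ (Finset.sum_le_sum_of_subset hE)
    rw [Finset.card_eq_sum_ones]
    refine Finset.sum_le_sum fun e he => ?_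
    have a1 : e.1 ∈ V := by
      simp only [hV, Finset.mem_union]; exact Or.inl (Or.inl (Finset.mem_image_of_mem _ he))
    have a2 : e.2 ∈ V := by
      simp only [hV, Finset.mem_union]; exact Or.inl (Or.inr (Finset.mem_image_of_mem _ he))
    simp [p, a1, a2]
  have h4 : I'.card ≤ ∑ e ∈ IL.toFinset, p e.1 * q e.2 := by
    refine le_trans ?_ (Finset.sum_le_sum_of_subset hI)
    rw [Finset.card_eq_sum_ones]
    refine Finset.sum_le_sum fun e he => ?_
    have a1 : e.1 ∈ V := by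
      simp only [hV, Finset.mem_union]; exact Or.inr (Finset.mem_image_of_mem _ he)
    have a2 : e.2 ∈ F := Finset.mem_image_of_mem _ he
    simp [p, q, a1, a2]
  have h5 : E'.card + I'.card ≠ 0 := by
    rcases hne with h | h <;> have := h.card_pos <;> omega
  rw [List.sum_toFinset _ (by decide)] at h3 h4
  simp only [EL, IL, List.map_cons, List.map_nil, List.sum_cons, List.sum_nil] at h3 h4
  have h1' : V.card = p 0 + p 1 + p 2 + p 3 + p 4 + p 5 + p 6 + p 7 + p 8 := by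
    rw [h1]; simp only [Fin.sum_univ_succ, Fin.sum_univ_zero]; simp; ring
  rw [Fin.sum_univ_eight] at h2
  have k := al_spec (al_spec (al_spec (al_spec (al_spec (al_spec (al_spec (al_spec (al_spec
    (al_spec (al_spec (al_spec (al_spec (al_spec (al_spec (al_spec (al_spec key (hp 0)) (hp 1))
    (hp 2)) (hp 3)) (hp 4)) (hp 5)) (hp 6)) (hp 7)) (hp 8)) (hq 0)) (hq 1)) (hq 2)) (hq 3)) (hq 4))
    (hq 5)) (hq 6)) (hq 7)
  simp only [g, Bool.or_eq_true, Nat.ble_eq, Nat.beq_eq, add_mul] at k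
  omega

theorem aux (a1 a2 a3 b1 b2 b3 c1 c2 c3 y1 y2 y3 p q s12 s21 s13 s31 s23 s32 : ℝ)
    (h12 : s12*(b2-a1) = p*b2+q) (h23 : s23*(b3-a2) = p*b3+q) (h31 : s31*(b1-a3) = p*b1+q)
    (h21 : s21*(b1-a2) = p*b1+q) (h32 : s32*(b2-a3) = p*b2+q) (h13 : s13*(b3-a1) = p*b3+q)
    (e3 : y3 = s12*(c3-a1)) (e3' : y3 = s21*(c3-a2))
    (e1 : y1 = s23*(c1-a2)) (e1' : y1 = s32*(c1-a3))
    (e2 : y2 = s31*(c2-a3)) (e2' : y2 = s13*(c2-a1))
    (n1 : b2 - a1 ≠ 0) (n2 : b3 - a2 ≠ 0) (n3 : b1 - a3 ≠ 0) :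
    (c2-c1)*(y3-y1) = (c3-c1)*(y2-y1) := by
  grind (ringSteps := 1000000)

theorem pappus (s : Scene 9 8) (h : ∀ c ∈ IL.toFinset, s.On c.1 c.2) (n1 : s.x 0 - s.x 4 ≠ 0)
    (n2 : s.x 1 - s.x 5 ≠ 0) (n3 : s.x 2 - s.x 3 ≠ 0) :
    (s.x 7 - s.x 6) * (s.y 8 - s.y 6) = (s.x 8 - s.x 6) * (s.y 7 - s.y 6) := by
  simp only [IL, List.mem_toFinset, List.forall_mem_cons, Scene.On] at h
  obtain ⟨h0, h1, h2, h3, h4, h5, h6, h7, h8, h9, h10, h11, h12, h13, h14, h15, h16, h17, h18, h19,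
    h20, h21, h22, h23, -⟩ := h
  have := aux (s.x 0) (s.x 1) (s.x 2) (s.x 3) (s.x 4) (s.x 5) (s.x 6) (s.x 7) (s.x 8)
    (s.y 6 + s.A 0 * s.x 6 + s.C 0) (s.y 7 + s.A 0 * s.x 7 + s.C 0) (s.y 8 + s.A 0 * s.x 8 + s.C 0)
    (s.A 0 - s.A 1) (s.C 0 - s.C 1) (s.A 0 - s.A 2) (s.A 0 - s.A 5) (s.A 0 - s.A 7) (s.A 0 - s.A 4)
    (s.A 0 - s.A 3) (s.A 0 - s.A 6)
    (by linear_combination h4 - h7 + h6 - h0) (by linear_combination h5 - h10 + h9 - h1)
    (by linear_combination h3 - h13 + h12 - h2) (by linear_combination h3 - h16 + h15 - h1)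
    (by linear_combination h4 - h19 + h18 - h2) (by linear_combination h5 - h22 + h21 - h0)
    (by linear_combination h8 - h6 + h0) (by linear_combination h17 - h15 + h1)
    (by linear_combination h11 - h9 + h1) (by linear_combination h20 - h18 + h2)
    (by linear_combination h14 - h12 + h2) (by linear_combination h23 - h21 + h0)
    (fun h => n1 (by linear_combination -h)) (fun h => n2 (by linear_combination -h))
    (fun h => n3 (by linear_combination -h))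
  linear_combination this

def zx : Fin 9 → ℤ := ![-1, 0, 1, 2, 0, -2, 2, 0, -2]
def zy : Fin 9 → ℤ := ![0, 0, 0, 2, 2, 2, -2, -2, -2]
def zA : Fin 8 → ℤ := ![0, 0, -2, 1, -2, -1, 2, 2]
def zC : Fin 8 → ℤ := ![0, -2, -2, 0, 2, 0, -2, 2]

noncomputable def s0 : Scene 9 8 :=
  ⟨fun i => zx i, fun i => zy i, fun j => zA j, fun j => zC j⟩

theorem indep0 : s0.Indep ∅ IL.toFinset := by
  rw [Scene.Indep, linearIndepOn_finset_iff]
  intro f hf
  rw [Finset.sum_disjSum, Finset.sum_empty, zero_add, List.sum_toFinset _ (by decide)] at hf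
  have h := fun u w U W => congrFun (congrFun (congrFun (congrFun hf u) w) U) W
  have hu := fun i => h (Pi.single i 1) 0 0 0
  have hw := fun i => h 0 (Pi.single i 1) 0 0
  have hU := fun i => h 0 0 (Pi.single i 1) 0
  have hW := fun i => h 0 0 0 (Pi.single i 1)
  simp [IL, Scene.form, s0, zx, zA, Fin.forall_fin_succ, Pi.single_apply] at hu hw hU hW
  simp [IL]
  refine ⟨?_, ?_, ?_, ?_, ?_, ?_, ?_, ?_, ?_, ?_, ?_, ?_, ?_, ?_, ?_, ?_, ?_, ?_, ?_, ?_, ?_, ?_, ?_, ?_⟩ <;>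
    linarith [hu.1, hw.1]

theorem result : ∃ (n m : ℕ) (E : Finset (Fin n × Fin n)) (I : Finset (Fin n × Fin m)),
    (∀ e ∈ E, e.1 < e.2) ∧
    (∃ s : Scene n m, (∀ i j, s.On i j ↔ (i, j) ∈ I) ∧
      (Function.Injective fun i => (s.x i, s.y i)) ∧
      (Function.Injective fun j => (s.A j, s.C j)) ∧ s.Indep ∅ I) ∧
    Count E I ∧
    ∀ s : Scene n m, (∀ c ∈ I, s.On c.1 c.2) → ¬ s.Indep E I := by
  refine ⟨9, 8, EL.toFinset, IL.toFinset, by decide, ⟨s0, ?_, ?_, ?_, indep0⟩, count, ?_⟩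
  · intro i j
    have : ∀ i j, zA j * zx i + zy i + zC j = 0 ↔ (i, j) ∈ IL.toFinset := by decide
    rw [← this, Scene.On]
    simp only [s0]
    exact_mod_cast Iff.rfl
  · intro i j h
    have : ∀ i j, zx i = zx j → zy i = zy j → i = j := by decide
    simp only [s0, Prod.mk.injEq, Int.cast_inj] at h
    exact this i j h.1 h.2
  · intro i j h
    have : ∀ i j, zA i = zA j → zC i = zC j → i = j := by decide
    simp only [s0, Prod.mk.injEq, Int.cast_inj] at h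
    exact this i j h.1 h.2
  · intro s hs hI
    have ne : ∀ i k, (i, k) ∈ EL.toFinset → ¬ (s.x i - s.x k = 0 ∧ s.y i - s.y k = 0) := by
      rintro i k hik ⟨a, b⟩
      refine hI.ne_zero (i := Sum.inl (i, k)) (by simpa using hik) ?_
      funext u w U W
      simp [Scene.form, a, b]
    have ne' : ∀ i k j, (i, k) ∈ EL.toFinset → (i, j) ∈ IL.toFinset → (k, j) ∈ IL.toFinset →
        s.x i - s.x k ≠ 0 := fun i k j h1 h2 h3 h => ne i k h1 ⟨h, by
      have a := hs _ h2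
      have b := hs _ h3
      simp only [Scene.On] at a b
      linear_combination a - b - s.A j * h⟩
    have col := pappus s hs (ne' 0 4 2 (by decide) (by decide) (by decide))
      (ne' 1 5 3 (by decide) (by decide) (by decide))
      (ne' 2 3 4 (by decide) (by decide) (by decide))
    have h3 : LinearIndepOn ℝ s.form
        (({Sum.inl (6, 7), Sum.inl (7, 8), Sum.inl (6, 8)} :
          Finset ((Fin 9 × Fin 9) ⊕ (Fin 9 × Fin 8))) : Set ((Fin 9 × Fin 9) ⊕ (Fin 9 × Fin 8))) :=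
      LinearIndepOn.mono hI (by rw [Finset.coe_subset]; decide)
    rw [linearIndepOn_finset_iff] at h3
    have := h3 (fun c => if c = Sum.inl (6, 7) then
        (s.x 7 - s.x 8) * (s.x 8 - s.x 6) + (s.y 7 - s.y 8) * (s.y 8 - s.y 6)
      else if c = Sum.inl (7, 8) then
        (s.x 6 - s.x 7) * (s.x 8 - s.x 6) + (s.y 6 - s.y 7) * (s.y 8 - s.y 6)
      else (s.x 6 - s.x 7) * (s.x 7 - s.x 8) + (s.y 6 - s.y 7) * (s.y 7 - s.y 8)) (by
        rw [Finset.sum_insert (by decide), Finset.sum_insert (by decide), Finset.sum_singleton]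
        funext u w U W
        simp [Scene.form]
        grind) (Sum.inl (7, 8)) (by decide)
    simp at this
    have a := ne 6 7 (by decide)
    have b := ne 6 8 (by decide)
    have : ((s.x 6 - s.x 7) ^ 2 + (s.y 6 - s.y 7) ^ 2) *
        ((s.x 6 - s.x 8) ^ 2 + (s.y 6 - s.y 8) ^ 2) = 0 := by
      linear_combination ((s.x 6 - s.x 7) * (s.x 8 - s.x 6) + (s.y 6 - s.y 7) * (s.y 8 - s.y 6)) *
        this + ((s.x 7 - s.x 6) * (s.y 8 - s.y 6) - (s.x 8 - s.x 6) * (s.y 7 - s.y 6)) * col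
    rcases mul_eq_zero.1 this with h | h
    · exact a ⟨by nlinarith [sq_nonneg (s.x 6 - s.x 7), sq_nonneg (s.y 6 - s.y 7)],
        by nlinarith [sq_nonneg (s.x 6 - s.x 7), sq_nonneg (s.y 6 - s.y 7)]⟩
    · exact b ⟨by nlinarith [sq_nonneg (s.x 6 - s.x 8), sq_nonneg (s.y 6 - s.y 8)],
        by nlinarith [sq_nonneg (s.x 6 - s.x 8), sq_nonneg (s.y 6 - s.y 8)]⟩

end Pool.Agent.Results.MP_b5aa09_co.Pappus
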